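import Pool.Agent.V5helper50.SP.Stm

/-!
# Project SP (helper50): job CNT (adapted from `V5helper6.MT.CNT`)
-/

set_option autoImplicit false

open Finset MeasureTheory

namespace Pool.Agent.V5helper72.SP

open Pool.Agent.V5helper50.SP

/-- the box -/
def bx {k : ℕ} (b : Fin k → ℕ) (l : ℕ) : Finset (Fin k → ℕ) := Fintype.piFinset fun i : Fin k => Icc (b i) (b i + l)

theorem bx_bd {k : ℕ} (b : Fin k → ℕ) (l : ℕ) (z : Fin k → ℕ) (hz : z ∈ bx b l) (i : Fin k) :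
    b i ≤ z i ∧ z i ≤ b i + l := by
  have := Fintype.mem_piFinset.1 hz i
  exact mem_Icc.1 this

/-- two solutions with the same first coordinates are near to each other -/
theorem near (hW : S_WC) (r m K : ℕ) (hm : 1 ≤ m) : ∃ C : ℝ, 0 < C ∧ ∀ X l : ℕ, 1 ≤ l → l ≤ X →
    ∀ b : Fin (r + m) → ℕ, (∀ i j : Fin (r + m), i < j → b i + 2 * l ≤ b j) → (∀ i, X ≤ b i ∧ b i + l ≤ K * X) →
    ∀ D : ℝ, 0 ≤ D →
    ∀ c : ℕ → ℝ, ∀ x ∈ bx b l, ∀ y ∈ bx b l,
    (∀ j ∈ Icc 1 (r + m), |∑ i, (x i : ℝ) ^ j - c j| ≤ D) →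
    (∀ j ∈ Icc 1 (r + m), |∑ i, (y i : ℝ) ^ j - c j| ≤ D) →
    (∀ i : Fin (r + m), (i : ℕ) < r → x i = y i) →
    ∀ i : Fin (r + m), |(x i : ℝ) - y i| ≤ C * (D * ((X : ℝ) / l) ^ (r + m - 1 - r) / (X : ℝ) ^ r) := by
  obtain ⟨C, hC, h⟩ := hW r m K hm
  have hm0 : (0 : ℝ) < m := by exact_mod_cast hm
  refine ⟨C * (m * 2), by positivity, ?_⟩
  intro X l hl hlX b hb1 hb2 D hD c x hx y hy hx1 hy1 hxy i
  have hl1 : (1 : ℝ) ≤ l := by exact_mod_cast hl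
  have hlX1 : (l : ℝ) ≤ X := by exact_mod_cast hlX
  have hX1 : (1 : ℝ) ≤ X := hl1.trans hlX1
  have hX0 : (0 : ℝ) < X := by linarith
  have hl0 : (0 : ℝ) < l := by linarith
  by_cases hi : (i : ℕ) < r
  · rw [hxy i hi, sub_self, abs_zero]; positivity
  · obtain ⟨n, rfl⟩ : ∃ n : Fin m, i = Fin.natAdd r n :=
      ⟨⟨i - r, by omega⟩, by ext; simp only [Fin.natAdd_mk]; omega⟩
    have hb : ∀ z ∈ bx b l, ∀ n : Fin m,
        (b (Fin.natAdd r n) : ℝ) ≤ ((z (Fin.natAdd r n) : ℕ) : ℝ) ∧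
        ((z (Fin.natAdd r n) : ℕ) : ℝ) ≤ (b (Fin.natAdd r n) : ℝ) + l := by
      intro z hz n
      obtain ⟨h1, h2⟩ := bx_bd _ _ z hz (Fin.natAdd r n)
      exact ⟨by exact_mod_cast h1, by exact_mod_cast h2⟩
    have h2 := h X l hl0 hlX1 (fun n => (b (Fin.natAdd r n) : ℝ))
      (fun n => (x (Fin.natAdd r n) : ℝ)) (fun n => (y (Fin.natAdd r n) : ℝ))
      (fun i j hij => by
        have := hb1 (Fin.natAdd r i) (Fin.natAdd r j) (by
          rw [Fin.lt_def, Fin.val_natAdd, Fin.val_natAdd]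
          have := Fin.lt_def.1 hij
          omega)
        exact_mod_cast this)
      (fun i => by
        obtain ⟨h3, h4⟩ := hb2 (Fin.natAdd r i)
        exact ⟨by exact_mod_cast h3, by exact_mod_cast h4⟩)
      (fun n => hb x hx n) (fun n => hb y hy n) n
    have h3 : ∑ j ∈ Icc (r + 1) (r + m),
          |∑ n, ((x (Fin.natAdd r n) : ℝ) ^ j - (y (Fin.natAdd r n) : ℝ) ^ j)| * (X : ℝ) ^ (r + m - j) ≤
          m * (2 * D * (X : ℝ) ^ (m - 1)) := by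
      calc _ ≤ ∑ j ∈ Icc (r + 1) (r + m), 2 * D * (X : ℝ) ^ (m - 1) := by
            apply sum_le_sum
            intro j hj
            obtain ⟨hj1, hj2⟩ := mem_Icc.1 hj
            have e1 : ∑ n, ((x (Fin.natAdd r n) : ℝ) ^ j - (y (Fin.natAdd r n) : ℝ) ^ j) =
                (∑ i, (x i : ℝ) ^ j - c j) - (∑ i, (y i : ℝ) ^ j - c j) := by
              rw [Fin.sum_univ_add, Fin.sum_univ_add, Finset.sum_sub_distrib]
              have : ∑ i : Fin r, (x (Fin.castAdd m i) : ℝ) ^ j = ∑ i : Fin r, (y (Fin.castAdd m i) : ℝ) ^ j := by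
                apply sum_congr rfl
                intro i _
                rw [hxy _ (by simp)]
              rw [this]; ring
            rw [e1]
            have h3 := hx1 j (mem_Icc.2 ⟨by omega, hj2⟩)
            have h4 := hy1 j (mem_Icc.2 ⟨by omega, hj2⟩)
            have h5 : |(∑ i, (x i : ℝ) ^ j - c j) - (∑ i, (y i : ℝ) ^ j - c j)| ≤ 2 * D := by
              calc _ ≤ |∑ i, (x i : ℝ) ^ j - c j| + |∑ i, (y i : ℝ) ^ j - c j| := abs_sub _ _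
                _ ≤ 2 * D := by linarith
            exact mul_le_mul h5 (pow_le_pow_right₀ hX1 (by omega)) (by positivity) (by positivity)
        _ = _ := by
          rw [sum_const, Nat.card_Icc, show r + m + 1 - (r + 1) = m by omega, nsmul_eq_mul]
    have h4 : |(x (Fin.natAdd r n) : ℝ) - y (Fin.natAdd r n)| * ((l : ℝ) ^ (m - 1) * (X : ℝ) ^ r) ≤
        C * (m * (2 * D * (X : ℝ) ^ (m - 1))) := by
      rw [← mul_assoc]
      exact h2.trans (mul_le_mul_of_nonneg_left h3 hC.le)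
    rw [show r + m - 1 - r = m - 1 by omega, div_pow]
    have e2 : C * (m * 2) * (D * ((X : ℝ) ^ (m - 1) / (l : ℝ) ^ (m - 1)) / (X : ℝ) ^ r) =
        C * (m * (2 * D * (X : ℝ) ^ (m - 1))) / ((l : ℝ) ^ (m - 1) * (X : ℝ) ^ r) := by
      field_simp
    rw [e2, le_div_iff₀ (by positivity)]
    exact h4

theorem near_all (hW : S_WC) (k K : ℕ) : ∃ A : ℝ, 1 ≤ A ∧ ∀ r < k, ∀ X l : ℕ, 1 ≤ l → l ≤ X →
    ∀ b : Fin k → ℕ, (∀ i j : Fin k, i < j → b i + 2 * l ≤ b j) → (∀ i, X ≤ b i ∧ b i + l ≤ K * X) →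
    ∀ D : ℝ, 0 ≤ D →
    ∀ c : ℕ → ℝ, ∀ x ∈ bx b l, ∀ y ∈ bx b l,
    (∀ j ∈ Icc 1 k, |∑ i, (x i : ℝ) ^ j - c j| ≤ D) →
    (∀ j ∈ Icc 1 k, |∑ i, (y i : ℝ) ^ j - c j| ≤ D) →
    (∀ i : Fin k, (i : ℕ) < r → x i = y i) →
    ∀ i : Fin k, |(x i : ℝ) - y i| ≤ A * (D * ((X : ℝ) / l) ^ (k - 1 - r) / (X : ℝ) ^ r) := by
  have h1 : ∀ r : ℕ, ∃ C : ℝ, 0 < C ∧ (r < k → ∀ X l : ℕ, 1 ≤ l → l ≤ X →
      ∀ b : Fin k → ℕ, (∀ i j : Fin k, i < j → b i + 2 * l ≤ b j) → (∀ i, X ≤ b i ∧ b i + l ≤ K * X) →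
      ∀ D : ℝ, 0 ≤ D →
      ∀ c : ℕ → ℝ, ∀ x ∈ bx b l, ∀ y ∈ bx b l,
      (∀ j ∈ Icc 1 k, |∑ i, (x i : ℝ) ^ j - c j| ≤ D) →
      (∀ j ∈ Icc 1 k, |∑ i, (y i : ℝ) ^ j - c j| ≤ D) →
      (∀ i : Fin k, (i : ℕ) < r → x i = y i) →
      ∀ i : Fin k, |(x i : ℝ) - y i| ≤ C * (D * ((X : ℝ) / l) ^ (k - 1 - r) / (X : ℝ) ^ r)) := by
    intro r
    rcases lt_or_ge r k with h | h
    · obtain ⟨m, rfl⟩ : ∃ m, k = r + m := ⟨k - r, by omega⟩
      obtain ⟨C, hC, hh⟩ := near hW r m K (by omega)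
      exact ⟨C, hC, fun _ => hh⟩
    · exact ⟨1, one_pos, fun h2 => absurd h2 (by omega)⟩
  choose C hC hh using h1
  refine ⟨∑ r ∈ range k, C r + 1, ?_, ?_⟩
  · have : 0 ≤ ∑ r ∈ range k, C r := sum_nonneg (fun r _ => (hC r).le)
    linarith
  · intro r hr X l hl hlX b hb1 hb2 D hD c x hx y hy hx1 hy1 hxy i
    refine (hh r hr X l hl hlX b hb1 hb2 D hD c x hx y hy hx1 hy1 hxy i).trans ?_
    apply mul_le_mul_of_nonneg_right _ (by positivity)
    have : C r ≤ ∑ r ∈ range k, C r :=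
      single_le_sum (fun r _ => (hC r).le) (mem_range.2 (by omega))
    linarith

theorem nat_near (a b : ℕ) (t : ℝ) (h : |(a : ℝ) - b| ≤ t) : a ∈ Icc (b - ⌊t⌋₊) (b + ⌊t⌋₊) := by
  obtain ⟨h1, h2⟩ := abs_le.1 h
  rw [mem_Icc]
  constructor
  · rcases le_or_gt b a with h3 | h3
    · omega
    · have : b - a ≤ ⌊t⌋₊ := by
        apply Nat.le_floor
        rw [Nat.cast_sub h3.le]
        linarith
      omega
  · rcases le_or_gt a b with h3 | h3
    · omega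
    · have : a - b ≤ ⌊t⌋₊ := by
        apply Nat.le_floor
        rw [Nat.cast_sub h3.le]
        linarith
      omega

theorem card_near (s : Finset ℕ) (t : ℝ) (h : ∀ a ∈ s, ∀ b ∈ s, |(a : ℝ) - b| ≤ t) :
    s.card ≤ 2 * ⌊t⌋₊ + 1 := by
  rcases s.eq_empty_or_nonempty with h1 | ⟨b, hb⟩
  · rw [h1, card_empty]; omega
  · have h2 : s ⊆ Icc (b - ⌊t⌋₊) (b + ⌊t⌋₊) := fun a ha => nat_near a b t (h a ha b hb)
    refine (card_le_card h2).trans ?_
    rw [Nat.card_Icc]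
    omega

theorem card_near_pi {k : ℕ} (s : Finset (Fin k → ℕ)) (t : ℝ)
    (h : ∀ a ∈ s, ∀ b ∈ s, ∀ i, |(a i : ℝ) - b i| ≤ t) : s.card ≤ (2 * ⌊t⌋₊ + 1) ^ k := by
  rcases s.eq_empty_or_nonempty with h1 | ⟨b, hb⟩
  · rw [h1, card_empty]; exact Nat.zero_le _
  · have h2 : s ⊆ Fintype.piFinset (fun i => Icc (b i - ⌊t⌋₊) (b i + ⌊t⌋₊)) := by
      intro a ha
      rw [Fintype.mem_piFinset]
      exact fun i => nat_near _ _ t (h a ha b hb i)
    refine (card_le_card h2).trans ?_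
    rw [Fintype.card_piFinset]
    calc ∏ i : Fin k, (Icc (b i - ⌊t⌋₊) (b i + ⌊t⌋₊)).card ≤ ∏ _i : Fin k, (2 * ⌊t⌋₊ + 1) := by
          apply Finset.prod_le_prod' 
          intro i _
          rw [Nat.card_Icc]
          omega
      _ = (2 * ⌊t⌋₊ + 1) ^ k := by
          rw [prod_const, card_univ, Fintype.card_fin]

/-- truncation -/
def tr {k : ℕ} (r : ℕ) (x : Fin k → ℕ) : Fin k → ℕ := fun i => if (i : ℕ) < r then x i else 0

theorem main_cnt (hW : S_WC) (k N : ℕ) (hk : 1 ≤ k) : ∃ C : ℝ, 0 < C ∧ ∀ X l : ℕ, 1 ≤ l → l ≤ X →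
    ∀ b : Fin k → ℕ, (∀ i j : Fin k, i < j → b i + 2 * l ≤ b j) → (∀ i, X ≤ b i ∧ b i + l ≤ N * X) →
    ∀ D : ℝ, 1 ≤ D → ∀ c : ℕ → ℝ,
    ∀ Sol : Finset (Fin k → ℕ), (∀ x ∈ Sol, x ∈ bx b l ∧
      ∀ j ∈ Icc 1 k, |∑ i, (x i : ℝ) ^ j - c j| ≤ D) → (Sol.card : ℝ) ≤ C * D * ((X : ℝ) / l) ^ (k - 1) := by
  obtain ⟨K, hK1, hK⟩ := near_all hW k N
  refine ⟨((2 * ⌊K⌋₊ + 1 : ℕ) : ℝ) ^ k * (2 * K + 1) * 2 ^ k, by positivity, ?_⟩
  intro X l hl hlX b hb1 hb2 D hD c Sol hmem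
  have hl1 : (1 : ℝ) ≤ l := by exact_mod_cast hl
  have hlX1 : (l : ℝ) ≤ X := by exact_mod_cast hlX
  have hX1 : (1 : ℝ) ≤ X := hl1.trans hlX1
  have hX0 : (0 : ℝ) < X := by linarith
  have hl0 : (0 : ℝ) < l := by linarith
  set R : ℝ := (X : ℝ) / l with hR
  have hR1 : 1 ≤ R := by rw [hR, one_le_div hl0]; exact hlX1
  have hR0 : 0 < R := by linarith
  -- the choice of `r`
  set r := Nat.findGreatest (fun r => (X : ℝ) ^ r ≤ D * R ^ (k - 1 - r)) (k - 1) with hr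
  have hr1 : (X : ℝ) ^ r ≤ D * R ^ (k - 1 - r) :=
    Nat.findGreatest_spec (P := fun r => (X : ℝ) ^ r ≤ D * R ^ (k - 1 - r)) (Nat.zero_le (k - 1)) (by
      have : 1 ≤ R ^ (k - 1) := one_le_pow₀ hR1
      simp only [pow_zero, Nat.sub_zero]
      nlinarith)
  have hrk : r ≤ k - 1 := Nat.findGreatest_le (k - 1)
  have hrk2 : r < k := by omega
  have hr2 : r + 1 < k → D * R ^ (k - 1 - (r + 1)) < (X : ℝ) ^ (r + 1) := by
    intro h
    have := Nat.findGreatest_is_greatest (P := fun r => (X : ℝ) ^ r ≤ D * R ^ (k - 1 - r)) (n := k - 1) (k := r + 1)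
      (Nat.lt_succ_self r) (by omega)
    exact not_le.1 this
  -- step 2: fibres of the truncation to `r + 1` coordinates
  have hs2 : Sol.card ≤ (2 * ⌊K⌋₊ + 1) ^ k * (Sol.image (tr (r + 1))).card := by
    apply card_le_mul_card_image
    intro z hz
    apply card_near_pi
    intro x hx y hy i
    obtain ⟨hx1, hx2⟩ := mem_filter.1 hx
    obtain ⟨hy1, hy2⟩ := mem_filter.1 hy
    obtain ⟨hx3, hx4⟩ := hmem x hx1
    obtain ⟨hy3, hy4⟩ := hmem y hy1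
    have hxy : ∀ i : Fin k, (i : ℕ) < r + 1 → x i = y i := by
      intro i hi
      have := congrFun (hx2.trans hy2.symm) i
      simpa [tr, hi] using this
    by_cases hrk3 : r + 1 < k
    · have h3 := hK (r + 1) hrk3 X l hl hlX b hb1 hb2 D (by linarith) c x hx3 y hy3 hx4 hy4 hxy i
      refine h3.trans ?_
      have h4 : D * R ^ (k - 1 - (r + 1)) / (X : ℝ) ^ (r + 1) ≤ 1 := by
        rw [div_le_one (by positivity)]
        exact (hr2 hrk3).le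
      calc _ ≤ K * 1 := mul_le_mul_of_nonneg_left h4 (by linarith)
        _ = K := mul_one K
    · rw [hxy i (by have := i.2; omega), sub_self, abs_zero]
      linarith
  -- step 1
  set u : ℝ := D * R ^ (k - 1 - r) / (X : ℝ) ^ r with hu
  have hu1 : 1 ≤ u := by rw [hu, one_le_div (by positivity)]; exact hr1
  set t : ℝ := K * u with ht
  have ht0 : 0 ≤ t := by positivity
  have hs1 : (Sol.image (tr (r + 1))).card ≤ (2 * ⌊t⌋₊ + 1) * ((Sol.image (tr (r + 1))).image (tr r)).card := by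
    apply card_le_mul_card_image
    intro z hz
    -- the map `x ↦ x r` is injective on this fibre
    have hinj : Set.InjOn (fun x : Fin k → ℕ => x ⟨r, hrk2⟩)
        (((Sol.image (tr (r + 1))).filter (fun x => tr r x = z) : Finset (Fin k → ℕ)) : Set (Fin k → ℕ)) := by
      intro x hx y hy hxy
      obtain ⟨hx1, hx2⟩ := mem_filter.1 (mem_coe.1 hx)
      obtain ⟨hy1, hy2⟩ := mem_filter.1 (mem_coe.1 hy)
      obtain ⟨x', -, rfl⟩ := mem_image.1 hx1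
      obtain ⟨y', -, rfl⟩ := mem_image.1 hy1
      funext i
      rcases lt_trichotomy (i : ℕ) r with h | h | h
      · have := congrFun (hx2.trans hy2.symm) i
        simpa [tr, h] using this
      · have e : i = ⟨r, hrk2⟩ := Fin.ext h
        rw [e]; exact hxy
      · simp only [tr]
        rw [if_neg (by omega), if_neg (by omega)]
    rw [← card_image_of_injOn hinj]
    apply card_near
    intro a ha d hd
    obtain ⟨x, hx, rfl⟩ := mem_image.1 ha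
    obtain ⟨y, hy, rfl⟩ := mem_image.1 hd
    obtain ⟨hx1, hx2⟩ := mem_filter.1 hx
    obtain ⟨hy1, hy2⟩ := mem_filter.1 hy
    obtain ⟨x', hx', rfl⟩ := mem_image.1 hx1
    obtain ⟨y', hy', rfl⟩ := mem_image.1 hy1
    obtain ⟨hx3, hx4⟩ := hmem x' hx'
    obtain ⟨hy3, hy4⟩ := hmem y' hy'
    have h3 := hK r hrk2 X l hl hlX b hb1 hb2 D (by linarith) c x' hx3 y' hy3 hx4 hy4 (by
      intro i hi
      have := congrFun (hx2.trans hy2.symm) i
      simpa [tr, hi, Nat.lt_succ_of_lt hi] using this) ⟨r, hrk2⟩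
    simpa [tr] using h3
  -- step 0
  have hs0 : ((Sol.image (tr (r + 1))).image (tr r)).card ≤ (l + 1) ^ r := by
    have h4 : (Sol.image (tr (r + 1))).image (tr r) ⊆
        Fintype.piFinset (fun i : Fin k => if (i : ℕ) < r then Icc (b i) (b i + l) else {0}) := by
      intro z hz
      obtain ⟨y, hy, rfl⟩ := mem_image.1 hz
      obtain ⟨x, hx, rfl⟩ := mem_image.1 hy
      rw [Fintype.mem_piFinset]
      intro i
      have h5 := Fintype.mem_piFinset.1 (hmem x hx).1 i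
      by_cases h : (i : ℕ) < r
      · simpa [tr, h, Nat.lt_succ_of_lt h] using h5
      · simp [tr, h]
    refine (card_le_card h4).trans ?_
    rw [Fintype.card_piFinset]
    have h5 : ∀ i : Fin k, (if (i : ℕ) < r then Icc (b i) (b i + l) else ({0} : Finset ℕ)).card =
        if (i : ℕ) < r then l + 1 else 1 := by
      intro i
      split_ifs
      · rw [Nat.card_Icc]; omega
      · exact card_singleton 0
    simp only [h5]
    rw [Finset.prod_ite, prod_const, prod_const_one, mul_one]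
    apply le_of_eq
    congr 1
    have h6 : (univ.filter (fun i : Fin k => (i : ℕ) < r)).card = r := by
      rw [Fin.card_filter_val_lt]
      omega
    exact h6
  have ht2 : ((2 * ⌊t⌋₊ + 1 : ℕ) : ℝ) ≤ (2 * K + 1) * u := by
    have h7 : (⌊t⌋₊ : ℝ) ≤ t := Nat.floor_le ht0
    push_cast
    calc 2 * (⌊t⌋₊ : ℝ) + 1 ≤ 2 * t + u := by linarith
      _ = (2 * K + 1) * u := by rw [ht]; ring
  have h9 : Sol.card ≤ (2 * ⌊K⌋₊ + 1) ^ k * ((2 * ⌊t⌋₊ + 1) * (l + 1) ^ r) :=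
    hs2.trans (Nat.mul_le_mul_left _ (hs1.trans (Nat.mul_le_mul_left _ hs0)))
  have h10 : ((l : ℝ) + 1) ^ r ≤ 2 ^ k * (X : ℝ) ^ r := by
    calc ((l : ℝ) + 1) ^ r ≤ (2 * X) ^ r := by
          apply pow_le_pow_left₀ (by positivity)
          linarith
      _ = 2 ^ r * (X : ℝ) ^ r := by rw [mul_pow]
      _ ≤ 2 ^ k * (X : ℝ) ^ r := by
          apply mul_le_mul_of_nonneg_right _ (by positivity)
          exact pow_le_pow_right₀ (by norm_num) hrk2.le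
  calc (Sol.card : ℝ) ≤ (((2 * ⌊K⌋₊ + 1) ^ k * ((2 * ⌊t⌋₊ + 1) * (l + 1) ^ r) : ℕ) : ℝ) := by
        exact_mod_cast h9
    _ = ((2 * ⌊K⌋₊ + 1 : ℕ) : ℝ) ^ k * (((2 * ⌊t⌋₊ + 1 : ℕ) : ℝ) * ((l : ℝ) + 1) ^ r) := by
        push_cast; ring
    _ ≤ ((2 * ⌊K⌋₊ + 1 : ℕ) : ℝ) ^ k * (((2 * K + 1) * u) * (2 ^ k * (X : ℝ) ^ r)) := by
        apply mul_le_mul_of_nonneg_left _ (by positivity)
        exact mul_le_mul ht2 h10 (by positivity) (by positivity)
    _ = ((2 * ⌊K⌋₊ + 1 : ℕ) : ℝ) ^ k * (2 * K + 1) * 2 ^ k * D * R ^ (k - 1 - r) := by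
        have : (X : ℝ) ^ r ≠ 0 := by positivity
        rw [hu]
        field_simp
    _ ≤ ((2 * ⌊K⌋₊ + 1 : ℕ) : ℝ) ^ k * (2 * K + 1) * 2 ^ k * D * R ^ (k - 1) := by
        apply mul_le_mul_of_nonneg_left _ (by positivity)
        exact pow_le_pow_right₀ hR1 (by omega)

theorem t_CNT (hW : S_WC) : S_CNT := by
  intro k K hk
  obtain ⟨C, hC, h⟩ := main_cnt hW k K hk
  refine ⟨C, hC, ?_⟩
  intro X l hl hlX b hb1 hb2 D hD c
  exact h X l hl hlX b hb1 hb2 D hD c _ (fun x hx => (@Finset.mem_filter _ _ (_) _ _).1 hx)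

end Pool.Agent.V5helper72.SP
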